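import Pool.Agent.X171.AM.Final

/-!
# MP_66eb21_an: amalgamation of rational finitely presented isometric actions

The class of the rational finitely presented actions does not have the amalgamation property.
-/

namespace Pool.Agent.Results.MP_66eb21_an.NoAmalgamation

open Pool.Agent.X171.AM

universe u

/-- **Q1, answered negatively.** There are rational finitely presented actions `A`, `B`, `C` and
embeddings `e₁ : A → B`, `e₂ : A → C` such that no finitely presented action `D`, rational or
not, has embeddings `f₁ : B → D`, `f₂ : C → D` with `f₁ ∘ e₁ = f₂ ∘ e₂`. -/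
theorem result : ∃ (A B C : FPAction.{0}) (_ : A.IsRational) (_ : B.IsRational) (_ : C.IsRational)
    (e₁ : Emb A B) (e₂ : Emb A C), ∀ (D : FPAction.{u}) (f₁ : Emb B D) (f₂ : Emb C D),
      ¬ ((∀ g, f₁.φ (e₁.φ g) = f₂.φ (e₂.φ g)) ∧ ∀ i, f₁.ψ (e₁.ψ i) = f₂.ψ (e₂.ψ i)) :=
  no_AP

end Pool.Agent.Results.MP_66eb21_an.NoAmalgamation
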